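import Pool.Agent.H.MP_cac92d_co.B

namespace Pool.Agent.Results.MP_cac92d_co.Four

open Pool.Agent.H.MP_cac92d_co MeasureTheory Set Real
open scoped ENNReal

def sec (x : ℝ × ℝ) (a b : ℝ) : Set (ℝ × ℝ) :=
  {z | ∃ r, 0 ≤ r ∧ ∃ t ∈ Icc a b, z = (x.1 + r * cos t, x.2 + r * sin t)}

theorem result : ∃ μ ν : Measure (ℝ × ℝ), IsProbabilityMeasure μ ∧ IsProbabilityMeasure ν ∧
    μ ≪ volume ∧ ν ≪ volume ∧ ∀ (x : ℝ × ℝ) (a b c d : ℝ), a < b → b < c → c < d → d < a + 2 * π →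
      ¬ ∀ m ∈ ({μ, ν} : Set (Measure (ℝ × ℝ))), m (sec x a b) = 7 / 20 ∧ m (sec x b c) = 3 / 20 ∧
        m (sec x c d) = 7 / 20 ∧ m (sec x d (a + 2 * π)) = 3 / 20 := by
  refine ⟨cm dd, cm cc, cm_prob (by simp) _, cm_prob (by simp) _, cm_ac _, cm_ac _, ?_⟩
  intro x a b c d _ h2 _ h4 h
  obtain ⟨m1, -, m3, -⟩ := h (cm dd) (by simp)
  obtain ⟨-, m2, -, m4⟩ := h (cm cc) (by simp)
  have n1 : ((3 : ℕ) : ℝ≥0∞)⁻¹ < 7 / 20 := by
    rw [← ENNReal.toReal_lt_toReal (by simp) (by finiteness)]; norm_num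
  have n2 : ((7 : ℕ) : ℝ≥0∞)⁻¹ < 3 / 20 := by
    rw [← ENNReal.toReal_lt_toReal (by simp) (by finiteness)]; norm_num
  obtain ⟨i, i', hi, P, P'⟩ := cm_two dd (sector x a b) (lt_of_lt_of_eq n1 m1.symm)
  obtain ⟨j, j', hj, Q, Q'⟩ := cm_two dd (sector x c d) (lt_of_lt_of_eq n1 m3.symm)
  have S2 := cm_two cc (sector x b c) (lt_of_lt_of_eq n2 m2.symm)
  have S4 := cm_two cc (sector x d (a + 2 * π)) (lt_of_lt_of_eq n2 m4.symm)
  have A (k : Fin 3) (P : ∃ z ∈ sector x a b, dist z (dd k) < 1 / 1000)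
      (Q : ∃ z ∈ sector x c d, dist z (dd k) < 1 / 1000)
      (far : 5 < |x.1 - (dd k).1| ∨ 5 < |x.2 - (dd k).2|) : False := by
    obtain ⟨p, hp, dp⟩ := P
    obtain ⟨q, hq, dq⟩ := Q
    have fr {p : ℝ × ℝ} (dp : dist p (dd k) < 1 / 1000) : 4 ≤ |p.1 - x.1| ∨ 4 ≤ |p.2 - x.2| := by
      obtain ⟨⟨p1, p2⟩, p3, p4⟩ := ds dp
      simp only [lt_abs, le_abs] at far ⊢
      rcases far with (f | f) | (f | f)
      · left; right; linarith
      · left; left; linarith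
      · right; right; linarith
      · right; left; linarith
    have ne := ne0 h2 h4 hp hq (by
      obtain ⟨⟨p1, p2⟩, p3, p4⟩ := ds dp
      obtain ⟨⟨q1, q2⟩, q3, q4⟩ := ds dq
      have f : 16 ≤ (p.1 - x.1) ^ 2 + (p.2 - x.2) ^ 2 := by
        rw [← sq_abs (p.1 - x.1), ← sq_abs (p.2 - x.2)]
        rcases fr dp with f | f <;> nlinarith [sq_nonneg |p.1 - x.1|, sq_nonneg |p.2 - x.2|]
      have g1 : (q.1 - p.1) ^ 2 ≤ 1 := by rw [sq_le_one_iff_abs_le_one, abs_le]; constructor <;> linarith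
      have g2 : (q.2 - p.2) ^ 2 ≤ 1 := by rw [sq_le_one_iff_abs_le_one, abs_le]; constructor <;> linarith
      linarith [sq_nonneg (q.1 - x.1), sq_nonneg (q.2 - x.2)])
    obtain ⟨p', q', S, T, e, h0, ⟨u, v, huv, ⟨z, hz, dz⟩, w, hw, dw⟩, -, hS, -⟩ :=
      both h2 h4 hp hq ne (fun S => ∃ i j, i ≠ j ∧ (∃ z ∈ S, dist z (cc i) < 1 / 1000) ∧
        ∃ z ∈ S, dist z (cc j) < 1 / 1000) S2 S4
    rcases e with ⟨rfl, rfl⟩ | ⟨rfl, rfl⟩
    · exact caseA huv dp dq (fr dp) h0 dz dw (hS z hz) (hS w hw)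
    · exact caseA huv dq dp (fr dq) h0 dz dw (hS z hz) (hS w hw)
  have B (i j k : Fin 3) (h1 : i ≠ k) (h3 : j ≠ k) (P : ∃ z ∈ sector x a b, dist z (dd i) < 1 / 1000)
      (Q : ∃ z ∈ sector x c d, dist z (dd j) < 1 / 1000)
      (n1 : |x.1 - (dd k).1| ≤ 5) (n2 : |x.2 - (dd k).2| ≤ 5) : False := by
    by_cases hij : i = j
    · subst hij
      refine A i P Q ?_
      rw [abs_le] at n1 n2
      simp only [lt_abs]
      fin_cases i <;> fin_cases k <;> simp at h1 <;> simp [dd] at n1 n2 ⊢ <;>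
        first
        | (left; left; linarith [n1.1]) | (left; right; linarith [n1.2])
        | (right; left; linarith [n2.1]) | (right; right; linarith [n2.2])
    obtain ⟨p, hp, dp⟩ := P
    obtain ⟨q, hq, dq⟩ := Q
    obtain ⟨p', q', S, T, e, h0, -, ⟨u, v, -, ⟨z, hz, dz⟩, -⟩, -, hT⟩ :=
      both h2 h4 hp hq (caseB (z := x) hij h1 h3 dp dq n1 n2).1
        (fun S => ∃ i j, i ≠ j ∧ (∃ z ∈ S, dist z (cc i) < 1 / 1000) ∧
        ∃ z ∈ S, dist z (cc j) < 1 / 1000) S2 S4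
    rcases e with ⟨rfl, rfl⟩ | ⟨rfl, rfl⟩
    · exact hT z hz ((caseB hij h1 h3 dp dq n1 n2).2 h0 (cz dz))
    · exact hT z hz ((caseB (Ne.symm hij) h3 h1 dq dp n1 n2).2 h0 (cz dz))
  by_cases nr : ∃ k, |x.1 - (dd k).1| ≤ 5 ∧ |x.2 - (dd k).2| ≤ 5
  · obtain ⟨k, n1, n2⟩ := nr
    by_cases e1 : i = k <;> by_cases e2 : j = k
    · exact B i' j' k (e1 ▸ hi.symm) (e2 ▸ hj.symm) P' Q' n1 n2
    · exact B i' j k (e1 ▸ hi.symm) e2 P' Q n1 n2
    · exact B i j' k e1 (e2 ▸ hj.symm) P Q' n1 n2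
    · exact B i j k e1 e2 P Q n1 n2
  · have far (k : Fin 3) : 5 < |x.1 - (dd k).1| ∨ 5 < |x.2 - (dd k).2| := by
      by_contra c; push Not at c; exact nr ⟨k, c⟩
    have : i = j ∨ i = j' ∨ i' = j ∨ i' = j' := by omega
    rcases this with rfl | rfl | rfl | rfl
    · exact A _ P Q (far _)
    · exact A _ P Q' (far _)
    · exact A _ P' Q (far _)
    · exact A _ P' Q' (far _)

end Pool.Agent.Results.MP_cac92d_co.Four
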